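import Mathlib

open Set Topology

namespace Pool.Agent.Results.MP_b1ea19_gt.SineCurve

/-- The set `L(C)` of local separating points of a subspace `C` of a space `X`: the points
`p ∈ C` for which there is an open subset `U ∩ C` of `C` containing `p` such that, if `K` is the
component of `p` in `U ∩ C`, then `K \ {p}` is not connected (the empty set and singletons
being regarded as connected). -/
def L {X : Type} [TopologicalSpace X] (C : Set X) : Set X :=
  {p | p ∈ C ∧ ∃ U : Set X, IsOpen U ∧ p ∈ U ∧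
    ¬ IsPreconnected (connectedComponentIn (U ∩ C) p \ {p})}

/-- Any two distinct points of `A` are the endpoints of an arc contained in `A`. -/
def ArcwiseConnected {X : Type} [TopologicalSpace X] (A : Set X) : Prop :=
  ∀ a ∈ A, ∀ b ∈ A, a ≠ b →
    ∃ γ : unitInterval → X, IsEmbedding γ ∧ γ 0 = a ∧ γ 1 = b ∧ range γ ⊆ A

private theorem mem_L {X : Type} [TopologicalSpace X] {C : Set X} {p : X} (hC : IsPreconnected C)
    (hp : p ∈ C) (g : X → ℝ) (hg : Continuous g) (hfib : ∀ q ∈ C, g q = g p → q = p)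
    (ha : ∃ a ∈ C, g a < g p) (hb : ∃ b ∈ C, g p < g b) : p ∈ L C := by
  refine ⟨hp, univ, isOpen_univ, mem_univ p, ?_⟩
  rw [univ_inter, hC.connectedComponentIn hp]
  intro h
  obtain ⟨a, haC, hap⟩ := ha
  obtain ⟨b, hbC, hpb⟩ := hb
  have h1 := (h.image g hg.continuousOn).ordConnected
  have ha' : g a ∈ g '' (C \ {p}) := ⟨a, ⟨haC, by rintro rfl; exact lt_irrefl _ hap⟩, rfl⟩
  have hb' : g b ∈ g '' (C \ {p}) := ⟨b, ⟨hbC, by rintro rfl; exact lt_irrefl _ hpb⟩, rfl⟩
  obtain ⟨q, ⟨hqC, hqp⟩, hq⟩ := h1.out ha' hb' ⟨hap.le, hpb.le⟩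
  exact hqp (hfib q hqC hq)

/-- The closed topologist's sine curve. -/
private def S : Set (ℝ × ℝ) :=
  {p | (0 ≤ p.1 ∧ p.1 ≤ 1) ∧ (-1 ≤ p.2 ∧ p.2 ≤ 1) ∧ (p.1 = 0 ∨ p.2 = Real.sin p.1⁻¹)}

private theorem contAt {x : ℝ} (hx : x ≠ 0) : ContinuousAt (fun y : ℝ => Real.sin y⁻¹) x :=
  Real.continuous_sin.continuousAt.comp (continuousAt_inv₀ hx)

private theorem S_closed : IsClosed S := by
  have h1 : IsClosed {p : ℝ × ℝ | 0 ≤ p.1 ∧ p.1 ≤ 1} :=
    (isClosed_le continuous_const continuous_fst).inter (isClosed_le continuous_fst continuous_const)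
  have h2 : IsClosed {p : ℝ × ℝ | -1 ≤ p.2 ∧ p.2 ≤ 1} :=
    (isClosed_le continuous_const continuous_snd).inter (isClosed_le continuous_snd continuous_const)
  have h3 : IsClosed {p : ℝ × ℝ | p.1 = 0 ∨ p.2 = Real.sin p.1⁻¹} := by
    rw [← isOpen_compl_iff, isOpen_iff_mem_nhds]
    intro p hp
    rw [mem_compl_iff, mem_ofPred_eq, not_or] at hp
    obtain ⟨hp1, hp2⟩ := hp
    have e1 : ∀ᶠ q : ℝ × ℝ in 𝓝 p, q.1 ≠ 0 :=
      (continuous_fst.continuousAt (x := p)).eventually_ne hp1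
    have c1 : ContinuousAt (fun q : ℝ × ℝ => Real.sin q.1⁻¹) p :=
      ContinuousAt.comp (f := fun q : ℝ × ℝ => q.1) (g := fun y : ℝ => Real.sin y⁻¹)
        (contAt hp1) continuous_fst.continuousAt
    have c2 : ContinuousAt (fun q : ℝ × ℝ => q.2 - Real.sin q.1⁻¹) p :=
      (continuous_snd.continuousAt (x := p)).sub c1
    have e2 : ∀ᶠ q : ℝ × ℝ in 𝓝 p, q.2 - Real.sin q.1⁻¹ ≠ 0 :=
      c2.eventually_ne (sub_ne_zero.mpr hp2)
    filter_upwards [e1, e2] with q hq1 hq2
    rw [mem_compl_iff, mem_ofPred_eq, not_or]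
    exact ⟨hq1, sub_ne_zero.mp hq2⟩
  have : S = {p : ℝ × ℝ | 0 ≤ p.1 ∧ p.1 ≤ 1} ∩ ({p : ℝ × ℝ | -1 ≤ p.2 ∧ p.2 ≤ 1} ∩
      {p : ℝ × ℝ | p.1 = 0 ∨ p.2 = Real.sin p.1⁻¹}) := by
    ext p; rfl
  rw [this]
  exact h1.inter (h2.inter h3)

private theorem S_compact : IsCompact S := by
  have : IsCompact (Icc (0 : ℝ) 1 ×ˢ Icc (-1 : ℝ) 1) := isCompact_Icc.prod isCompact_Icc
  refine this.of_isClosed_subset S_closed ?_
  rintro p ⟨h1, h2, _⟩
  exact ⟨h1, h2⟩

private abbrev XX : Type := ↥S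

private def P (p : XX) : ℝ := p.1.1
private def Q (p : XX) : ℝ := p.1.2

private theorem P_cont : Continuous P := continuous_fst.comp continuous_subtype_val
private theorem Q_cont : Continuous Q := continuous_snd.comp continuous_subtype_val

private theorem ext' {p q : XX} (h1 : P p = P q) (h2 : Q p = Q q) : p = q :=
  Subtype.ext (Prod.ext h1 h2)

private theorem Q_eq {p : XX} (h : P p ≠ 0) : Q p = Real.sin (P p)⁻¹ := by
  rcases p.2.2.2 with h' | h'
  · exact absurd h' h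
  · exact h'

private theorem ext_pos {p q : XX} (h1 : P p = P q) (h : P p ≠ 0) : p = q :=
  ext' h1 (by rw [Q_eq h, Q_eq (h1 ▸ h), h1])

private theorem P_nonneg (p : XX) : 0 ≤ P p := p.2.1.1
private theorem P_le (p : XX) : P p ≤ 1 := p.2.1.2

private theorem mk_mem {x : ℝ} (h0 : 0 < x) (h1 : x ≤ 1) : ((x, Real.sin x⁻¹) : ℝ × ℝ) ∈ S :=
  ⟨⟨h0.le, h1⟩, ⟨Real.neg_one_le_sin _, Real.sin_le_one _⟩, Or.inr rfl⟩

private theorem bar_mem {y : ℝ} (h0 : -1 ≤ y) (h1 : y ≤ 1) : ((0, y) : ℝ × ℝ) ∈ S :=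
  ⟨⟨le_rfl, zero_le_one⟩, ⟨h0, h1⟩, Or.inl rfl⟩

private theorem exists_small {ε : ℝ} (hε : 0 < ε) {y : ℝ} (h0 : -1 ≤ y) (h1 : y ≤ 1) :
    ∃ x : ℝ, 0 < x ∧ x < ε ∧ Real.sin x⁻¹ = y := by
  obtain ⟨n, hn⟩ := exists_nat_gt (ε⁻¹ + 2)
  have hpi := Real.pi_gt_three
  have ha := Real.neg_pi_div_two_le_arcsin y
  have hpi4 := Real.pi_le_four
  have hn0 : (0 : ℝ) < n := lt_trans (by positivity) hn
  have hbig : ε⁻¹ < Real.arcsin y + n * (2 * Real.pi) := by
    have : (n : ℝ) * 6 ≤ n * (2 * Real.pi) := by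
      apply mul_le_mul_of_nonneg_left _ hn0.le
      linarith
    have hε' : 0 < ε⁻¹ := inv_pos.mpr hε
    linarith
  have hpos : 0 < Real.arcsin y + n * (2 * Real.pi) := lt_trans (inv_pos.mpr hε) hbig
  refine ⟨(Real.arcsin y + n * (2 * Real.pi))⁻¹, inv_pos.mpr hpos, ?_, ?_⟩
  · rw [inv_lt_comm₀ hpos hε]
    exact hbig
  · rw [inv_inv, Real.sin_add_nat_mul_two_pi, Real.sin_arcsin h0 h1]

private def D (s t : ℝ) : Set XX := {p | s < P p ∧ P p < t}

private theorem D_preconnected {s t : ℝ} (hs : 0 ≤ s) (ht : t ≤ 1) : IsPreconnected (D s t) := by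
  rw [← Topology.IsInducing.subtypeVal.isPreconnected_image]
  have : Subtype.val '' D s t = (fun x : ℝ => ((x, Real.sin x⁻¹) : ℝ × ℝ)) '' Ioo s t := by
    ext q
    constructor
    · rintro ⟨p, ⟨h1, h2⟩, rfl⟩
      refine ⟨P p, ⟨h1, h2⟩, ?_⟩
      have hne : P p ≠ 0 := ne_of_gt (lt_of_le_of_lt hs h1)
      exact Prod.ext rfl (Q_eq hne).symm
    · rintro ⟨x, ⟨h1, h2⟩, rfl⟩
      exact ⟨⟨_, mk_mem (lt_of_le_of_lt hs h1) (h2.le.trans ht)⟩, ⟨h1, h2⟩, rfl⟩
  rw [this]
  apply isPreconnected_Ioo.image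
  intro x hx
  have hne : x ≠ 0 := ne_of_gt (lt_of_le_of_lt hs hx.1)
  exact (continuousAt_id.prodMk (contAt hne)).continuousWithinAt

private theorem subset_closure_D {s t : ℝ} (hs : 0 ≤ s) (hst : s < t) (ht : t ≤ 1) (p : XX)
    (h1 : s ≤ P p) (h2 : P p ≤ t) : p ∈ closure (D s t) := by
  rw [Metric.mem_closure_iff]
  intro ε hε
  by_cases h0 : P p = 0
  · have hs0 : s = 0 := le_antisymm (h1.trans h0.le) hs
    obtain ⟨x, hx0, hx1, hx2⟩ := exists_small (lt_min hε (lt_of_le_of_lt hs hst)) p.2.2.1.1 p.2.2.1.2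
    have hxt : x < t := lt_of_lt_of_le hx1 (min_le_right _ _)
    have hxe : x < ε := lt_of_lt_of_le hx1 (min_le_left _ _)
    refine ⟨⟨_, mk_mem hx0 (hxt.le.trans ht)⟩, ⟨by rw [hs0]; exact hx0, hxt⟩, ?_⟩
    rw [Subtype.dist_eq, Prod.dist_eq]
    have e1 : dist p.1.1 x = x := by
      have : p.1.1 = 0 := h0
      rw [this, Real.dist_eq, zero_sub, abs_neg, abs_of_pos hx0]
    have e2 : dist p.1.2 (Real.sin x⁻¹) = 0 := by rw [hx2, dist_self]
    simp only [e1, e2]
    exact max_lt hxe hε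
  · have hc : ContinuousAt (fun x : ℝ => ((x, Real.sin x⁻¹) : ℝ × ℝ)) (P p) :=
      continuousAt_id.prodMk (contAt h0)
    rw [Metric.continuousAt_iff] at hc
    obtain ⟨δ, hδ, hc⟩ := hc ε hε
    have hcl : P p ∈ closure (Ioo s t) := by
      rw [closure_Ioo hst.ne]; exact ⟨h1, h2⟩
    rw [Metric.mem_closure_iff] at hcl
    obtain ⟨x, hx, hxd⟩ := hcl δ hδ
    have := hc (by rw [dist_comm]; exact hxd : dist x (P p) < δ)
    refine ⟨⟨_, mk_mem (lt_of_le_of_lt hs hx.1) (hx.2.le.trans ht)⟩, ⟨hx.1, hx.2⟩, ?_⟩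
    rw [Subtype.dist_eq, dist_comm]
    have e : p.1 = (P p, Real.sin (P p)⁻¹) := Prod.ext rfl (Q_eq h0)
    rw [e]
    exact this

private theorem univ_preconnected : IsPreconnected (univ : Set XX) := by
  apply (D_preconnected (s := 0) (t := 1) le_rfl le_rfl).subset_closure (subset_univ _)
  intro p _
  exact subset_closure_D le_rfl zero_lt_one le_rfl p (P_nonneg p) (P_le p)

private theorem L_subset {C : Set XX} : L C ⊆ C := fun _ hp => hp.1

private theorem L_preconnected (C : Set XX) (hCc : IsCompact C) (hC : IsConnected C) :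
    IsPreconnected (L C) := by
  obtain ⟨pm, hpm, hmin⟩ := hCc.exists_isMinOn hC.nonempty P_cont.continuousOn
  obtain ⟨pM, hpM, hmax⟩ := hCc.exists_isMaxOn hC.nonempty P_cont.continuousOn
  have hmin' : ∀ q ∈ C, P pm ≤ P q := fun q hq => hmin hq
  have hmax' : ∀ q ∈ C, P q ≤ P pM := fun q hq => hmax hq
  have hord := (hC.isPreconnected.image P P_cont.continuousOn).ordConnected
  have hfill : ∀ x, P pm ≤ x → x ≤ P pM → ∃ q ∈ C, P q = x := by
    intro x h1 h2
    obtain ⟨q, hq, hqx⟩ := hord.out ⟨pm, hpm, rfl⟩ ⟨pM, hpM, rfl⟩ ⟨h1, h2⟩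
    exact ⟨q, hq, hqx⟩
  by_cases ht : P pM = 0
  · -- `C` lies in the bar
    have hP0 : ∀ q ∈ C, P q = 0 := fun q hq => le_antisymm (ht ▸ hmax' q hq) (P_nonneg q)
    obtain ⟨qm, hqm, hqmin⟩ := hCc.exists_isMinOn hC.nonempty Q_cont.continuousOn
    obtain ⟨qM, hqM, hqmax⟩ := hCc.exists_isMaxOn hC.nonempty Q_cont.continuousOn
    have hqmin' : ∀ q ∈ C, Q qm ≤ Q q := fun q hq => hqmin hq
    have hqmax' : ∀ q ∈ C, Q q ≤ Q qM := fun q hq => hqmax hq
    have hordQ := (hC.isPreconnected.image Q Q_cont.continuousOn).ordConnected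
    rcases eq_or_lt_of_le (hqmin' qM hqM) with he | hlt
    · apply Set.Subsingleton.isPreconnected
      intro a ha b hb
      have ha' := L_subset ha
      have hb' := L_subset hb
      apply ext'
      · rw [hP0 a ha', hP0 b hb']
      · have h1 := hqmin' a ha'
        have h2 := hqmax' a ha'
        have h3 := hqmin' b hb'
        have h4 := hqmax' b hb'
        linarith
    · have hmemC : ∀ p : XX, P p = 0 → Q qm ≤ Q p → Q p ≤ Q qM → p ∈ C := by
        intro p h0 h1 h2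
        obtain ⟨q, hq, hqx⟩ := hordQ.out ⟨qm, hqm, rfl⟩ ⟨qM, hqM, rfl⟩ ⟨h1, h2⟩
        have : q = p := ext' (by rw [hP0 q hq, h0]) hqx
        rw [← this]; exact hq
      have hE : IsPreconnected {p : XX | P p = 0 ∧ Q qm < Q p ∧ Q p < Q qM} := by
        rw [← Topology.IsInducing.subtypeVal.isPreconnected_image]
        have : Subtype.val '' {p : XX | P p = 0 ∧ Q qm < Q p ∧ Q p < Q qM}
            = (fun y : ℝ => ((0, y) : ℝ × ℝ)) '' Ioo (Q qm) (Q qM) := by
          ext q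
          constructor
          · rintro ⟨p, ⟨h0, h1, h2⟩, rfl⟩
            exact ⟨Q p, ⟨h1, h2⟩, Prod.ext h0.symm rfl⟩
          · rintro ⟨y, ⟨h1, h2⟩, rfl⟩
            exact ⟨⟨_, bar_mem (qm.2.2.1.1.trans h1.le) (h2.le.trans qM.2.2.1.2)⟩,
              ⟨rfl, h1, h2⟩, rfl⟩
        rw [this]
        apply isPreconnected_Ioo.image
        exact (continuous_const.prodMk continuous_id).continuousOn
      apply hE.subset_closure
      · rintro p ⟨h0, h1, h2⟩
        refine mem_L hC.isPreconnected (hmemC p h0 h1.le h2.le) Q Q_cont ?_ ⟨qm, hqm, h1⟩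
          ⟨qM, hqM, h2⟩
        intro q hq hqp
        exact ext' (by rw [hP0 q hq, h0]) hqp
      · intro p hp
        have hpC := L_subset hp
        rw [Metric.mem_closure_iff]
        intro ε hε
        have hcl : Q p ∈ closure (Ioo (Q qm) (Q qM)) := by
          rw [closure_Ioo hlt.ne]; exact ⟨hqmin' p hpC, hqmax' p hpC⟩
        rw [Metric.mem_closure_iff] at hcl
        obtain ⟨y, hy, hyd⟩ := hcl ε hε
        refine ⟨⟨_, bar_mem (qm.2.2.1.1.trans hy.1.le) (hy.2.le.trans qM.2.2.1.2)⟩,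
          ⟨rfl, hy.1, hy.2⟩, ?_⟩
        rw [Subtype.dist_eq, Prod.dist_eq]
        have e1 : dist p.1.1 0 = 0 := by
          have : p.1.1 = 0 := hP0 p hpC
          rw [this, dist_self]
        simp only [e1]
        exact max_lt hε hyd
  · have htpos : 0 < P pM := lt_of_le_of_ne (P_nonneg _) (Ne.symm ht)
    rcases eq_or_lt_of_le (hmin' pM hpM) with he | hlt
    · apply Set.Subsingleton.isPreconnected
      intro a ha b hb
      have ha' := L_subset ha
      have hb' := L_subset hb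
      have h1 := hmin' a ha'
      have h2 := hmax' a ha'
      have h3 := hmin' b hb'
      have h4 := hmax' b hb'
      exact ext_pos (by linarith) (by linarith)
    · have hDC : D (P pm) (P pM) ⊆ C := by
        rintro p ⟨h1, h2⟩
        obtain ⟨q, hq, hqx⟩ := hfill (P p) h1.le h2.le
        have : q = p := ext_pos hqx (by
          rw [hqx]; exact ne_of_gt (lt_of_le_of_lt (P_nonneg _) h1))
        rw [← this]; exact hq
      apply (D_preconnected (P_nonneg pm) (P_le pM)).subset_closure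
      · intro p hp
        refine mem_L hC.isPreconnected (hDC hp) P P_cont ?_ ⟨pm, hpm, hp.1⟩ ⟨pM, hpM, hp.2⟩
        intro q _ hqp
        exact ext_pos hqp (by
          rw [hqp]; exact ne_of_gt (lt_of_le_of_lt (P_nonneg _) hp.1))
      · intro p hp
        have hpC := L_subset hp
        exact subset_closure_D (P_nonneg pm) hlt (P_le pM) p (hmin' p hpC) (hmax' p hpC)

private theorem no_path (γ : unitInterval → XX) (hγ : Continuous γ) (h0 : P (γ 0) = 0)
    (h1 : P (γ 1) = 1) : False := by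
  have hcl : IsCompact {t : unitInterval | P (γ t) = 0} :=
    (isClosed_eq (P_cont.comp hγ) continuous_const).isCompact
  obtain ⟨t0, ht0, hgr⟩ := hcl.exists_isGreatest ⟨0, h0⟩
  have ht0' : P (γ t0) = 0 := ht0
  have hcQ : ContinuousAt (fun t => Q (γ t)) t0 := (Q_cont.comp hγ).continuousAt
  rw [Metric.continuousAt_iff] at hcQ
  obtain ⟨δ, hδ, hc⟩ := hcQ 1 one_pos
  have ht01 : t0 < 1 := by
    rcases lt_or_eq_of_le (unitInterval.le_one' (t := t0)) with h | h
    · exact h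
    · rw [h] at ht0'; rw [h1] at ht0'; exact absurd ht0' one_ne_zero
  -- a point `t1` slightly to the right of `t0`
  have ht01' : (t0 : ℝ) < 1 := by exact_mod_cast ht01
  have ht00 : (0 : ℝ) ≤ t0 := t0.2.1
  set r : ℝ := min 1 ((t0 : ℝ) + δ / 2) with hr
  have hr0 : (t0 : ℝ) < r := lt_min ht01' (by linarith)
  have hr1 : r ≤ 1 := min_le_left _ _
  have hr2 : r ≤ (t0 : ℝ) + δ / 2 := min_le_right _ _
  let t1 : unitInterval := ⟨r, ⟨by linarith, hr1⟩⟩
  have ht1 : t0 < t1 := by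
    rw [← Subtype.coe_lt_coe]; exact hr0
  have hpos : 0 < P (γ t1) := by
    rcases eq_or_lt_of_le (P_nonneg (γ t1)) with h | h
    · exact absurd (hgr (show t1 ∈ {t : unitInterval | P (γ t) = 0} from h.symm))
        (not_le.mpr ht1)
    · exact h
  have key : ∀ y : ℝ, -1 ≤ y → y ≤ 1 → |y - Q (γ t0)| < 1 := by
    intro y hy0 hy1
    obtain ⟨x, hx0, hx1, hx2⟩ := exists_small hpos hy0 hy1
    have hivt := (isPreconnected_Icc (a := t0) (b := t1)).image (fun t => P (γ t))
      (P_cont.comp hγ).continuousOn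
    obtain ⟨t, ht, htx⟩ := hivt.ordConnected.out
      ⟨t0, left_mem_Icc.mpr ht1.le, rfl⟩ ⟨t1, right_mem_Icc.mpr ht1.le, rfl⟩
      (show x ∈ Icc (P (γ t0)) (P (γ t1)) from ⟨by rw [ht0']; exact hx0.le, hx1.le⟩)
    have htx' : P (γ t) = x := htx
    have hQ : Q (γ t) = y := by rw [Q_eq (by rw [htx']; exact hx0.ne'), htx', hx2]
    have hd : dist t t0 < δ := by
      rw [Subtype.dist_eq, Real.dist_eq, abs_lt]
      have a1 : (t0 : ℝ) ≤ t := by exact_mod_cast ht.1
      have a2 : (t : ℝ) ≤ r := by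
        have := ht.2
        rw [← Subtype.coe_le_coe] at this
        exact this
      constructor <;> linarith
    have := hc hd
    rw [Real.dist_eq, hQ] at this
    exact this
  have k1 := key 1 (by norm_num) le_rfl
  have k2 := key (-1) le_rfl (by norm_num)
  rw [abs_lt] at k1 k2
  linarith [k1.2, k2.1]

/-- There is a metric continuum `X` (the closed topologist's sine curve) such that `L(C)` is
connected for every subcontinuum `C` of `X`, although not every connected subset of `X` is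
arcwise connected (`X` itself is not). -/
theorem result :
    ∃ (X : Type) (_ : MetricSpace X), CompactSpace X ∧ ConnectedSpace X ∧
      (∀ C : Set X, IsCompact C → IsConnected C → IsPreconnected (L C)) ∧
      ¬ (∀ A : Set X, IsPreconnected A → ArcwiseConnected A) := by
  refine ⟨XX, inferInstance, isCompact_iff_compactSpace.mp S_compact, ?_, L_preconnected, ?_⟩
  · haveI : Nonempty XX := ⟨⟨_, bar_mem (y := 0) (by norm_num) (by norm_num)⟩⟩
    haveI : PreconnectedSpace XX := ⟨univ_preconnected⟩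
    exact ConnectedSpace.mk inferInstance
  · intro h
    let a : XX := ⟨_, bar_mem (y := 0) (by norm_num) (by norm_num)⟩
    let b : XX := ⟨_, mk_mem (x := 1) one_pos le_rfl⟩
    have hab : a ≠ b := by
      intro hab
      have h1 : P a = P b := by rw [hab]
      have h2 : P a = 0 := rfl
      have h3 : P b = 1 := rfl
      rw [h2, h3] at h1
      exact zero_ne_one h1
    obtain ⟨γ, hγ, h0, h1, _⟩ := h univ univ_preconnected a (mem_univ _) b (mem_univ _) hab
    exact no_path γ hγ.continuous (by rw [h0]; rfl) (by rw [h1]; rfl)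

end Pool.Agent.Results.MP_b1ea19_gt.SineCurve
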